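import Pool.Agent.X42.MaxShattering

/-!
# Maximal-shattering sequences need not be non-decreasing
-/

set_option autoImplicit false

namespace Pool.Agent.Results.MP_522a36_co.NotMonotone

open Pool.Agent.X42.Shatter

/-- There are an infinite type `X` and a family `S` of subsets of `X` of finite VC-dimension, whose
sequence `d_k = VC(S^{∪k})` is even strictly increasing, with `s_3 < s_2`. -/
theorem result : ∃ (X : Type) (S : Set (Set X)), Infinite X ∧ vcDim S < ⊤ ∧
    (∀ k : ℕ, vcDim (kUnion S k) < vcDim (kUnion S (k + 1))) ∧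
    shatterSeq S 3 < shatterSeq S 2 :=
  ⟨Fin 4 ⊕ ℕ, sys, inferInstance, vcDim_sys_one, vcDim_sys_lt, shatterSeq_lt⟩

end Pool.Agent.Results.MP_522a36_co.NotMonotone
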